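import Mathlib

set_option autoImplicit false

/-!
Project PF (MP_86f7a7_co): definitions and the statements of the modules.
Write a module as a theorem `... : StmtXxx` (or `StmtYyy → StmtXxx` where indicated).
-/

namespace Pool.Agent.T6.H7.PF

open scoped BigOperators Pointwise

/-- Euclidean space of dimension `n`. -/
abbrev E (n : ℕ) := EuclideanSpace ℝ (Fin n)

/-- The real vector of an integer vector. -/
noncomputable def toE {n : ℕ} (x : Fin n → ℤ) : E n := WithLp.toLp 2 (fun i => (x i : ℝ))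

/-- The elements of norm at most `r` of a subgroup. -/
def bal {n : ℕ} (L : AddSubgroup (E n)) (r : ℝ) : Set (E n) := {x | x ∈ L ∧ ‖x‖ ≤ r}

/-- Their number. -/
noncomputable def cnt {n : ℕ} (L : AddSubgroup (E n)) (r : ℝ) : ℕ := (bal L r).ncard

/-- All balls are finite (discreteness). -/
def FinBalls {n : ℕ} (L : AddSubgroup (E n)) : Prop := ∀ r : ℝ, (bal L r).Finite

/-- The section of `L` by a real subspace. -/
def sec {n : ℕ} (L : AddSubgroup (E n)) (V : Submodule ℝ (E n)) : AddSubgroup (E n) :=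
  L ⊓ V.toAddSubgroup

/-- Norm of the `i`-th Gram-Schmidt vector. -/
noncomputable def gsn {n k : ℕ} (b : Fin k → E n) (i : Fin k) : ℝ :=
  ‖InnerProductSpace.gramSchmidt ℝ b i‖

/-! ### P: packing -/

/-- P1: a separated subgroup has finite balls, with at most `(1 + 2 r / u) ^ dim V` points. -/
def StmtP1 : Prop :=
  ∀ (n : ℕ) (L : AddSubgroup (E n)) (V : Submodule ℝ (E n)) (u : ℝ), L ≤ V.toAddSubgroup →
    0 < u → (∀ x ∈ L, x ≠ 0 → u ≤ ‖x‖) →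
    FinBalls L ∧ ∀ r : ℝ, 0 ≤ r → (cnt L r : ℝ) ≤ (1 + 2 * r / u) ^ Module.finrank ℝ V

/-- P2: doubling the radius. -/
def StmtP2 : Prop :=
  ∀ (n : ℕ) (L : AddSubgroup (E n)) (V : Submodule ℝ (E n)), L ≤ V.toAddSubgroup →
    FinBalls L → ∀ r : ℝ, 0 < r →
    (cnt L (2 * r) : ℝ) ≤ 5 ^ Module.finrank ℝ V * cnt L r

/-! ### R: random lattices -/

/-- R1: the number of integer points of norm at most `ρ` at distance at most `δ` from `V`. -/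
def StmtR1 : Prop :=
  ∃ C : ℝ, 1 ≤ C ∧ ∀ (n : ℕ) (V : Submodule ℝ (E n)) (ρ δ : ℝ), 1 ≤ n → Real.sqrt n ≤ δ → δ ≤ ρ →
    {x : Fin n → ℤ | ‖toE x‖ ≤ ρ ∧ ‖toE x - V.starProjection (toE x)‖ ≤ δ}.Finite ∧
    ({x : Fin n → ℤ | ‖toE x‖ ≤ ρ ∧ ‖toE x - V.starProjection (toE x)‖ ≤ δ}.ncard : ℝ) ≤
      C ^ n * ρ ^ Module.finrank ℝ V * δ ^ (n - Module.finrank ℝ V) / Real.sqrt n ^ n

/-- R2: the number of vectors modulo `p` orthogonal to given independent integer vectors. -/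
def StmtR2 : Prop :=
  ∀ (n k p : ℕ) [Fact p.Prime] (x : Fin k → Fin n → ℤ) (ρ : ℝ),
    LinearIndependent ℝ (fun i => toE (x i)) → (∀ i, ‖toE (x i)‖ ≤ ρ) →
    (k.factorial : ℝ) * (ρ ^ 2) ^ k < p →
    {a : Fin n → ZMod p | ∀ i, ∑ j, a j * (x i j : ZMod p) = 0}.ncard * p ^ k ≤ p ^ n

/-- R: the lattice. -/
def StmtR : Prop :=
  ∃ C : ℝ, 1 ≤ C ∧ ∀ (n : ℕ) (T : ℝ), 1 ≤ n → 1 ≤ T → T ≤ n →
    ∃ (L : AddSubgroup (E n)) (u : ℝ), 0 < u ∧ FinBalls L ∧ (∀ x ∈ L, x ≠ 0 → u ≤ ‖x‖) ∧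
      (T / C) ^ n ≤ (cnt L (T * u) : ℝ) ∧
      ∀ (k : ℕ) (b : Fin k → E n), 4 * k ≤ n → (∀ i, b i ∈ L) → LinearIndependent ℝ b →
        (∀ i, ‖b i‖ ≤ n * (T * u)) → (∀ i, gsn b i ≤ T * u) →
        (∀ i j : Fin k, i.val + 1 = j.val → 3 / 4 * gsn b i ^ 2 ≤ gsn b j ^ 2) →
        (C ^ k * (n : ℝ) ^ (C * (k : ℝ) ^ 2 / n))⁻¹ ≤ ∏ i, (gsn b i / u)

/-! ### M: reduced bases -/

/-- M1: a reduced basis of the section of `M` by the span of its elements of norm at most `τ`. -/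
def StmtM1 : Prop :=
  ∀ (n : ℕ) (M : AddSubgroup (E n)) (τ : ℝ), FinBalls M → 0 < τ →
    ∃ b : Fin (Module.finrank ℝ (Submodule.span ℝ (bal M τ))) → E n,
      (∀ i, b i ∈ M) ∧ LinearIndependent ℝ b ∧ (∀ i, ‖b i‖ ≤ n * τ) ∧ (∀ i, gsn b i ≤ τ) ∧
      (∀ i j, i.val + 1 = j.val → 3 / 4 * gsn b i ^ 2 ≤ gsn b j ^ 2) ∧
      ∀ x ∈ M, x ∈ Submodule.span ℝ (bal M τ) → ∃ c : Fin _ → ℤ, x = ∑ i, c i • b i

/-- M2: counting with a basis. -/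
def StmtM2 : Prop :=
  ∀ (n k : ℕ) (b : Fin k → E n) (r : ℝ), 1 ≤ k → LinearIndependent ℝ b → 0 < r →
    {c : Fin k → ℤ | ‖∑ i, c i • b i‖ ≤ r}.Finite ∧
    ({c : Fin k → ℤ | ‖∑ i, c i • b i‖ ≤ r}.ncard : ℝ) ≤
      Real.exp k * ∏ i, (3 + 2 * r / (Real.sqrt k * gsn b i))

/-- M: the two combined; number of points at the scale `sqrt k * τ` in terms of a reduced basis. -/
def StmtM : Prop :=
  ∀ (n : ℕ) (M : AddSubgroup (E n)) (τ : ℝ), FinBalls M → 0 < τ →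
    1 ≤ Module.finrank ℝ (Submodule.span ℝ (bal M τ)) →
    ∃ b : Fin (Module.finrank ℝ (Submodule.span ℝ (bal M τ))) → E n,
      (∀ i, b i ∈ M) ∧ LinearIndependent ℝ b ∧ (∀ i, ‖b i‖ ≤ n * τ) ∧ (∀ i, gsn b i ≤ τ) ∧
      (∀ i j, i.val + 1 = j.val → 3 / 4 * gsn b i ^ 2 ≤ gsn b j ^ 2) ∧
      (cnt (sec M (Submodule.span ℝ (bal M τ)))
        (Real.sqrt (Module.finrank ℝ (Submodule.span ℝ (bal M τ))) * τ) : ℝ) ≤
        Real.exp (Module.finrank ℝ (Submodule.span ℝ (bal M τ))) * ∏ i, (5 * τ / gsn b i)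

/-! ### W: sections with many points, from the weak Freiman-Ruzsa theorem of the library -/

/-- W2: small doubling of a ball gives a section of small dimension with many points. -/
def StmtW2 : Prop :=
  ∀ (n : ℕ) (M : AddSubgroup (E n)) (r K : ℝ), FinBalls M → 0 < r → 1 ≤ K →
    (cnt M (2 * r) : ℝ) ≤ K * cnt M r →
    ∃ V : Submodule ℝ (E n), (Module.finrank ℝ V : ℝ) ≤ 480 * Real.log K + 1 ∧
      (cnt M r : ℝ) ≤ K ^ 185 * cnt (sec M V) (2 * r)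

/-- The good lattices. -/
def StmtGood : Prop :=
  ∃ κ τ C : ℝ, 0 < κ ∧ 0 < τ ∧ τ ≤ 1 / 2 ∧ 1 ≤ C ∧ ∃ n₀ : ℕ, ∀ n : ℕ, n₀ ≤ n →
    ∃ (L : AddSubgroup (E n)) (u : ℝ), 0 < u ∧ FinBalls L ∧ (∀ x ∈ L, x ≠ 0 → u ≤ ‖x‖) ∧
      ((n : ℝ) ^ τ / C) ^ n ≤ (cnt L ((n : ℝ) ^ τ * u) : ℝ) ∧
      ∀ V : Submodule ℝ (E n), (Module.finrank ℝ V : ℝ) ≤ κ * n →
        (cnt (sec L V) (4 * ((n : ℝ) ^ τ * u)) : ℝ) ≤ Real.exp n

/-! ### H: progressions -/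

/-- The progression with base point `a`, generators `v i` and lengths `N i`. -/
def prog {V : Type*} [AddCommGroup V] {d : ℕ} (a : V) (v : Fin d → V) (N : Fin d → ℕ) : Set V :=
  {x : V | ∃ k : Fin d → ℕ, (∀ i, k i < N i) ∧ x = a + ∑ i, k i • v i}

/-- H1: a Halasz type inequality relative to a set `A`. `B t` are `2 ^ s` disjoint families of
`w` independent vectors, `M` bounds the number of integer combinations of each family in
`2 A - 2 A`. -/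
def StmtH1 : Prop :=
  ∀ (G : Type) [AddCommGroup G] [DecidableEq G] (A : Finset G) (ι : Type) [DecidableEq ι]
    (v : ι → G) (s w M : ℕ) (B : ℕ → Finset ι) (y : G), A.Nonempty →
    (∀ t < 2 ^ s, ∀ t' < 2 ^ s, t ≠ t' → Disjoint (B t) (B t')) →
    (∀ t < 2 ^ s, (B t).card = w) →
    (∀ t < 2 ^ s, ∀ D : Finset ((B t) → ℤ),
      (∀ c ∈ D, ∑ i, c i • v i ∈ (A + A) - (A + A)) → D.card ≤ M) →
    ((((((Finset.range (2 ^ s)).biUnion B).powerset.filter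
      (fun T => y + ∑ i ∈ T, v i ∈ A)).card : ℕ) : ℝ)) ^ 4 * (A.card : ℝ) ^ 2 *
      (2 * 2 ^ s + 1 : ℝ) ^ w ≤
    (((A + A).card : ℕ) : ℝ) ^ 2 * (M : ℝ) ^ 2 * (16 : ℝ) ^ (2 ^ s * w)

/-- H2: no progression with `∏ N i ≤ exp (C n) |A|` meets `A` in `exp (- C n) |A|` points,
when `A` is the ball of radius `R` of a lattice with few points in sections and `|A|` is large. -/
def StmtH2 : Prop :=
  ∀ (C κ : ℝ), 1 ≤ C → 0 < κ → ∃ (h : ℝ) (n₀ : ℕ), ∀ (n : ℕ) (L : AddSubgroup (E n)) (R : ℝ),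
    n₀ ≤ n → FinBalls L → 0 < R →
    (∀ V : Submodule ℝ (E n), (Module.finrank ℝ V : ℝ) ≤ κ * n →
      (cnt (sec L V) (4 * R) : ℝ) ≤ Real.exp n) →
    Real.exp (h * n) ≤ (cnt L R : ℝ) →
    ∀ (d : ℕ) (a : E n) (v : Fin d → E n) (N : Fin d → ℕ), a ∈ L → (∀ i, v i ∈ L) →
      ((∏ i, N i : ℕ) : ℝ) ≤ Real.exp (C * n) * cnt L R →
      ((bal L R ∩ prog a v N).ncard : ℝ) < Real.exp (-C * n) * cnt L R

/-- H3: progressions of small rank. -/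
def StmtH3 : Prop :=
  ∀ (C κ : ℝ), 1 ≤ C → 0 < κ → ∃ (c : ℝ) (n₀ : ℕ), 0 < c ∧
    ∀ (n : ℕ) (L : AddSubgroup (E n)) (R : ℝ), n₀ ≤ n → FinBalls L → 0 < R →
    (∀ V : Submodule ℝ (E n), (Module.finrank ℝ V : ℝ) ≤ κ * n →
      (cnt (sec L V) (4 * R) : ℝ) ≤ Real.exp n) →
    ∀ (d : ℕ) (a : E n) (v : Fin d → E n) (N : Fin d → ℕ), a ∈ L → (∀ i, v i ∈ L) →
      ((prog a v N).ncard : ℝ) ≤ Real.exp (C * n) * cnt L R →
      Real.exp (-C * n) * cnt L R ≤ ((bal L R ∩ prog a v N).ncard : ℝ) →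
      c * Real.log (cnt L R) - n ≤ d

end Pool.Agent.T6.H7.PF
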