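import Pool.Agent.T6.H7.PF.Sec

set_option autoImplicit false

namespace Pool.Agent.T6.H7.PF

open scoped BigOperators

/-- The numerical part of the choice of the scale. -/
lemma scale_num {C ℓ : ℝ} (hC : 1 ≤ C) (hℓ : 40000 * (Real.log (20 * Real.exp 1 * C) + 1) ≤ ℓ)
    {k : ℕ} (hk : Real.exp (ℓ / 2) ≤ k) :
    ∃ J : ℕ, 1 ≤ J ∧ (2 : ℝ) ^ J ≤ Real.sqrt k ∧
      Real.log (20 * Real.exp 1 * C) + ℓ / 10000 ≤ (J : ℝ) / 2000 := by
  have he : (1 : ℝ) ≤ Real.exp 1 := Real.one_le_exp (by norm_num)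
  have hlogC : 0 ≤ Real.log (20 * Real.exp 1 * C) := by
    apply Real.log_nonneg
    nlinarith
  have hℓ1 : 40000 ≤ ℓ := by linarith
  set s := Nat.sqrt k with hs
  have hk1 : 1 ≤ k := by
    have : (1 : ℝ) ≤ k := (Real.one_le_exp (by linarith)).trans hk
    exact_mod_cast this
  have hs1 : 1 ≤ s := by
    rw [hs]
    exact Nat.sqrt_pos.2 hk1
  set J := Nat.log 2 s with hJ
  have h1 : 2 ^ J ≤ s := Nat.pow_log_le_self 2 (by omega)
  have h2 : s < 2 ^ (J + 1) := Nat.lt_pow_succ_log_self (by norm_num) s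
  have h3 : k < (2 ^ (J + 1)) ^ 2 := by
    have h4 : k < (s + 1) * (s + 1) := Nat.lt_succ_sqrt k
    have h5 : (s + 1) * (s + 1) ≤ (2 ^ (J + 1)) ^ 2 := by
      rw [sq]
      exact Nat.mul_le_mul h2 h2
    omega
  have h6 : Real.exp (ℓ / 2) < (2 ^ (J + 1)) ^ 2 := by
    refine lt_of_le_of_lt hk ?_
    exact_mod_cast h3
  have h7 : (2 : ℝ) ≤ Real.exp 1 := by
    have := Real.exp_one_gt_d9
    linarith
  have h8 : ((2 : ℝ) ^ (J + 1)) ^ 2 ≤ Real.exp (2 * (J + 1)) := by
    calc ((2 : ℝ) ^ (J + 1)) ^ 2 ≤ ((Real.exp 1) ^ (J + 1)) ^ 2 := by gcongr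
      _ = Real.exp (2 * (J + 1)) := by
        rw [← pow_mul, ← Real.exp_nat_mul]
        congr 1
        push_cast
        ring
  have h9 : ℓ / 2 < 2 * (J + 1) := by
    have := lt_of_lt_of_le h6 h8
    exact Real.exp_lt_exp.1 this
  refine ⟨J, ?_, ?_, ?_⟩
  · have : (1 : ℝ) < J := by linarith
    have h10 : 1 < J := by exact_mod_cast this
    omega
  · rw [Real.le_sqrt (by positivity) (by positivity)]
    have h11 : s * s ≤ k := Nat.sqrt_le k
    have h12 : (2 ^ J) ^ 2 ≤ k := by
      calc (2 ^ J) ^ 2 = 2 ^ J * 2 ^ J := by ring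
        _ ≤ s * s := Nat.mul_le_mul h1 h1
        _ ≤ k := h11
    exact_mod_cast h12
  · linarith

theorem stmtGood (hP1 : StmtP1) (hP2 : StmtP2) (hR : StmtR) (hM : StmtM) (hW : StmtW2) :
    StmtGood := by
  obtain ⟨C, hC, hR⟩ := hR
  refine ⟨1 / (20000 * C), 1 / 20000, 25 * C, by positivity, by norm_num, by norm_num,
    by linarith, ⌈Real.exp (40000 * (Real.log (20 * Real.exp 1 * C) + 1))⌉₊, ?_⟩
  intro n hn
  have he : (1 : ℝ) ≤ Real.exp 1 := Real.one_le_exp (by norm_num)
  have hlogC : 0 ≤ Real.log (20 * Real.exp 1 * C) := by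
    apply Real.log_nonneg
    nlinarith
  set ℓ := Real.log n with hℓ
  have hn' : Real.exp (40000 * (Real.log (20 * Real.exp 1 * C) + 1)) ≤ n :=
    (Nat.le_ceil _).trans (by exact_mod_cast hn)
  have hnpos : (0 : ℝ) < n := lt_of_lt_of_le (Real.exp_pos _) hn'
  have hnexp : (n : ℝ) = Real.exp ℓ := (Real.exp_log hnpos).symm
  have hℓ0 : 40000 * (Real.log (20 * Real.exp 1 * C) + 1) ≤ ℓ := by
    rw [hℓ]
    exact (Real.le_log_iff_exp_le hnpos).2 hn'
  have hℓ1 : 40000 ≤ ℓ := by linarith
  have hn1 : 1 ≤ n := by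
    have : 0 < n := by exact_mod_cast hnpos
    omega
  have hτ : (n : ℝ) ^ ((1 : ℝ) / 20000) = Real.exp (ℓ / 20000) := by
    rw [Real.rpow_def_of_pos hnpos, ← hℓ]
    congr 1
    ring
  set t := (n : ℝ) ^ ((1 : ℝ) / 20000) with ht
  have ht1 : 1 ≤ t := by
    rw [hτ]
    exact Real.one_le_exp (by linarith)
  have h4t : 4 * t ≤ n := by
    rw [hτ, hnexp]
    have e1 : Real.exp ℓ = Real.exp (ℓ - ℓ / 20000) * Real.exp (ℓ / 20000) := by
      rw [← Real.exp_add]
      congr 1
      ring
    rw [e1]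
    refine mul_le_mul_of_nonneg_right ?_ (Real.exp_pos _).le
    have := Real.add_one_le_exp (ℓ - ℓ / 20000)
    linarith
  set T := 4 * t with hT
  have hT1 : 1 ≤ T := by linarith
  obtain ⟨L, u, hu, hf, hsep, hlow, hup⟩ := hR n T hn1 hT1 h4t
  have hTu : 0 < T * u := by positivity
  -- the logarithm
  have hlogT : 2 * Real.log (1 + 2 * T) ≤ Real.exp (ℓ / 2) := by
    have a1 : 1 + 2 * T ≤ Real.exp (2 + ℓ) := by
      have a2 : (3 : ℝ) ≤ Real.exp 2 := by
        have := Real.add_one_le_exp (2 : ℝ)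
        linarith
      have a3 : (1 : ℝ) ≤ n := by exact_mod_cast hn1
      rw [Real.exp_add, ← hnexp]
      nlinarith
    have a4 : Real.log (1 + 2 * T) ≤ 2 + ℓ := by
      rw [Real.log_le_iff_le_exp (by linarith)]
      exact a1
    have a5 := Real.quadratic_le_exp_of_nonneg (x := ℓ / 2) (by linarith)
    nlinarith
  have hexp2 : Real.exp (ℓ / 2) * Real.exp (ℓ / 2) = n := by
    rw [← Real.exp_add, hnexp]
    congr 1
    ring
  have hbig : 8 * Real.log (1 + 2 * T) ≤ n := by
    have b1 : (4 : ℝ) ≤ Real.exp (ℓ / 2) := by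
      have := Real.add_one_le_exp (ℓ / 2)
      linarith
    nlinarith
  have hlogpos : 0 < Real.log (1 + 2 * T) := Real.log_pos (by linarith)
  refine ⟨L, u, hu, hf, hsep, ?_, ?_⟩
  · -- lower bound
    have htop : L ≤ (⊤ : Submodule ℝ (E n)).toAddSubgroup := fun x _ => (Submodule.mem_top : x ∈ (⊤ : Submodule ℝ (E n)))
    have p1 := hP2 n L ⊤ htop hf (2 * (t * u)) (by positivity)
    have p2 := hP2 n L ⊤ htop hf (t * u) (by positivity)
    have hfr : Module.finrank ℝ (⊤ : Submodule ℝ (E n)) = n := by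
      rw [finrank_top]
      simp [E]
    rw [hfr] at p1 p2
    have e1 : T * u = 2 * (2 * (t * u)) := by rw [hT]; ring
    rw [e1] at hlow
    have h25 : (T / C) ^ n ≤ 25 ^ n * (cnt L (t * u) : ℝ) := by
      calc (T / C) ^ n ≤ (cnt L (2 * (2 * (t * u))) : ℝ) := hlow
        _ ≤ 5 ^ n * cnt L (2 * (t * u)) := p1
        _ ≤ 5 ^ n * (5 ^ n * cnt L (t * u)) := by gcongr
        _ = (5 * 5) ^ n * cnt L (t * u) := by rw [mul_pow]; ring
        _ = _ := by norm_num
    have h25' : (0 : ℝ) < 25 ^ n := by positivity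
    have e2 : (T / C) ^ n = 25 ^ n * (T / (25 * C)) ^ n := by
      rw [← mul_pow]
      congr 1
      field_simp
    rw [e2] at h25
    have h26 := le_of_mul_le_mul_left h25 h25'
    refine le_trans ?_ h26
    gcongr
    rw [hT]
    linarith
  · intro V hV
    have e1 : 4 * (t * u) = T * u := by rw [hT]; ring
    rw [e1]
    have hκ : 1 / (20000 * C) * (n : ℝ) ≤ n / 20000 := by
      rw [div_mul_eq_mul_div, one_mul]
      apply div_le_div_of_nonneg_left hnpos.le (by norm_num)
      linarith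
    have key := sections hP1 hP2 hW hf (κ := 1 / (20000 * C)) hu hT1 hsep ?_ _ V rfl hV hbig
    · refine key.trans (Real.exp_le_exp.2 ?_)
      linarith
    · clear hV V
      intro V hV hlarge hspan
      set k := Module.finrank ℝ V with hk
      have hk4 : (4 : ℝ) * k ≤ n := by linarith
      have hk4' : 4 * k ≤ n := by exact_mod_cast hk4
      have hkexp : Real.exp (ℓ / 2) ≤ k := by
        have c1 : (n : ℝ) / 2 < k * (Real.exp (ℓ / 2) / 2) := by
          refine lt_of_lt_of_le hlarge ?_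
          gcongr
          linarith
        rw [← hexp2] at c1
        have c2 : Real.exp (ℓ / 2) * (Real.exp (ℓ / 2) / 2) < k * (Real.exp (ℓ / 2) / 2) := by
          linarith
        exact (lt_of_mul_lt_mul_right c2 (by positivity)).le
      have hk1 : 1 ≤ k := by
        have : (1 : ℝ) ≤ k := (Real.one_le_exp (by linarith)).trans hkexp
        exact_mod_cast this
      obtain ⟨J, hJ1, hJ2, hJ3⟩ := scale_num hC hℓ0 hkexp
      refine ⟨J, hJ1, ?_⟩
      have hMM := hM n (sec L V) (T * u) (hf.sec V) hTu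
      rw [hspan] at hMM
      obtain ⟨b, hb1, hb2, hb3, hb4, hb5, hb6⟩ := hMM hk1
      have hss : sec (sec L V) V = sec L V := by
        ext x
        exact ⟨fun hx => hx.1, fun hx => ⟨hx, hx.2⟩⟩
      rw [hss] at hb6
      have hprod := hup k b hk4' (fun i => (hb1 i).1) hb2 hb3 hb4 hb5
      have hkpos : (0 : ℝ) < k := by exact_mod_cast hk1
      have hn1' : (1 : ℝ) ≤ n := by exact_mod_cast hn1
      -- the exponent
      have hexpo : (n : ℝ) ^ (C * (k : ℝ) ^ 2 / n) ≤ Real.exp (k * (ℓ / 20000)) := by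
        rw [Real.rpow_def_of_pos hnpos, ← hℓ]
        refine Real.exp_le_exp.2 ?_
        have d1 : C * (k : ℝ) ^ 2 / n ≤ k / 20000 := by
          rw [div_le_div_iff₀ hnpos (by norm_num)]
          have d2 : (k : ℝ) * (20000 * C) ≤ n := by
            have := hV
            rw [div_mul_eq_mul_div, one_mul, le_div_iff₀ (by positivity)] at this
            exact this
          nlinarith
        calc ℓ * (C * (k : ℝ) ^ 2 / n) ≤ ℓ * (k / 20000) := by gcongr
          _ = k * (ℓ / 20000) := by ring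
      have hgs : ∀ i, 0 < gsn b i := by
        intro i
        unfold gsn
        rw [norm_pos_iff]
        exact InnerProductSpace.gramSchmidt_ne_zero i hb2
      have hprod' : ∏ i, (5 * (T * u) / gsn b i) ≤
          (5 * T) ^ k * (C ^ k * Real.exp (k * (ℓ / 20000))) := by
        have e2 : ∏ i, (5 * (T * u) / gsn b i) = (5 * T) ^ k * (∏ i, (gsn b i / u))⁻¹ := by
          rw [← Finset.prod_inv_distrib]
          have : (5 * T) ^ k = ∏ _i : Fin k, (5 * T) := by simp
          rw [this, ← Finset.prod_mul_distrib]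
          refine Finset.prod_congr rfl fun i _ => ?_
          have := (hgs i).ne'
          field_simp
        rw [e2]
        have e3 : (∏ i, (gsn b i / u))⁻¹ ≤ C ^ k * (n : ℝ) ^ (C * (k : ℝ) ^ 2 / n) := by
          rw [inv_le_comm₀]
          · exact hprod
          · exact Finset.prod_pos fun i _ => div_pos (hgs i) hu
          · positivity
        have e4 : (0 : ℝ) ≤ (5 * T) ^ k := by positivity
        refine mul_le_mul_of_nonneg_left (e3.trans ?_) e4
        gcongr
      have hmono : (cnt (sec L V) (2 ^ J * (T * u)) : ℝ) ≤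
          cnt (sec L V) (Real.sqrt k * (T * u)) := by
        have := cnt_mono (hf.sec V) (r := 2 ^ J * (T * u)) (s := Real.sqrt k * (T * u))
          (mul_le_mul_of_nonneg_right hJ2 hTu.le)
        exact_mod_cast this
      calc (cnt (sec L V) (2 ^ J * (T * u)) : ℝ)
          ≤ cnt (sec L V) (Real.sqrt k * (T * u)) := hmono
        _ ≤ Real.exp k * ∏ i, (5 * (T * u) / gsn b i) := hb6
        _ ≤ Real.exp k * ((5 * T) ^ k * (C ^ k * Real.exp (k * (ℓ / 20000)))) := by gcongr
        _ = Real.exp (k * (Real.log (20 * Real.exp 1 * C) + ℓ / 10000)) := by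
            have f1 : Real.exp (k : ℝ) = (Real.exp 1) ^ k := by
              rw [← Real.exp_nat_mul]; simp
            have f2 : Real.exp (k * (ℓ / 20000)) = t ^ k := by
              rw [hτ, ← Real.exp_nat_mul]
            have f3 : Real.exp (k * (Real.log (20 * Real.exp 1 * C) + ℓ / 10000)) =
                (20 * Real.exp 1 * C * (t * t)) ^ k := by
              rw [Real.exp_nat_mul, Real.exp_add, Real.exp_log (by positivity), hτ,
                ← Real.exp_add]
              congr 3
              ring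
            rw [f1, f2, f3, hT, ← mul_pow, ← mul_pow, ← mul_pow]
            congr 1
            ring
        _ ≤ Real.exp (k * ((J : ℝ) / 2000)) := by
            refine Real.exp_le_exp.2 ?_
            gcongr
        _ = Real.exp ((k : ℝ) / 2000) ^ J := by
            rw [← Real.exp_nat_mul]
            congr 1
            ring

end Pool.Agent.T6.H7.PF
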