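import Pool.Agent.T6.H7.PF.Defs

set_option autoImplicit false

/-!
Project PF, module H3: progressions of small rank.
-/

namespace Pool.Agent.T6.H7.PF

open scoped BigOperators Pointwise

namespace ModH3

lemma zsmul_eq {n : ℕ} (c : ℤ) (v : E n) : c • v = (c : ℝ) • v := by
  rw [Int.cast_smul_eq_zsmul]

/-- the progression is finite -/
lemma prog_finite {n d : ℕ} (a : E n) (v : Fin d → E n) (N : Fin d → ℕ) :
    (prog a v N).Finite := by
  classical
  refine Set.Finite.subset
    ((Fintype.piFinset (fun i => Finset.range (N i))).finite_toSet.image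
      (fun k : Fin d → ℕ => a + ∑ i, k i • v i)) ?_
  rintro x ⟨k, hk, rfl⟩
  refine ⟨k, ?_, rfl⟩
  simpa using hk

lemma bal_mono {n : ℕ} (L : AddSubgroup (E n)) {r s : ℝ} (h : r ≤ s) : bal L r ⊆ bal L s :=
  fun _ hx => ⟨hx.1, hx.2.trans h⟩

lemma fin_sec {n : ℕ} {L : AddSubgroup (E n)} (hL : FinBalls L) (V : Submodule ℝ (E n)) (r : ℝ) :
    (bal (sec L V) r).Finite :=
  (hL r).subset (fun _ hx => ⟨hx.1.1, hx.2⟩)

/-- differences of elements of the ball -/
lemma sub_mem_bal {n : ℕ} {L : AddSubgroup (E n)} {V : Submodule ℝ (E n)} {R : ℝ} (hR : 0 < R)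
    {x y : E n} (hx : x ∈ bal L R) (hy : y ∈ bal L R) (hV : x - y ∈ V) :
    x - y ∈ bal (sec L V) (4 * R) := by
  refine ⟨⟨L.sub_mem hx.1 hy.1, hV⟩, ?_⟩
  have := norm_sub_le x y
  have h1 := hx.2
  have h2 := hy.2
  linarith

/-- part (a): many independent long directions -/
lemma long_directions {n d m q : ℕ} {L : AddSubgroup (E n)} {R : ℝ} (hL : FinBalls L)
    (hR : 0 < R) (a : E n) (v : Fin d → E n) (N : Fin d → ℕ)
    (g : Fin m → Fin d) (hg : Function.Injective g) (hN : ∀ i, 2 * q ≤ N (g i)) (_hq : 1 ≤ q)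
    (hli : LinearIndependent ℝ (fun i => v (g i))) :
    (bal L R ∩ prog a v N).ncard * (q + 1) ^ m ≤
      cnt (sec L (Submodule.span ℝ (Set.range fun i => v (g i)))) (4 * R) *
        (prog a v N).ncard := by
  classical
  obtain ⟨V, hV⟩ : ∃ V, V = Submodule.span ℝ (Set.range fun i => v (g i)) := ⟨_, rfl⟩
  rw [← hV]
  have hPf := prog_finite a v N
  have hSf : (bal L R ∩ prog a v N).Finite := hPf.subset Set.inter_subset_right
  -- choice of coefficients
  have hk : ∀ x : E n, ∃ k : Fin d → ℕ, x ∈ prog a v N → (∀ i, k i < N i) ∧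
      x = a + ∑ i, k i • v i := by
    intro x
    by_cases hx : x ∈ prog a v N
    · obtain ⟨k, hk, hk'⟩ := hx
      exact ⟨k, fun _ => ⟨hk, hk'⟩⟩
    · exact ⟨0, fun h => absurd h hx⟩
  choose k hk using hk
  let σ : E n → Fin m → ℤ := fun x i => if k x (g i) < q then 1 else -1
  have hσ : ∀ x i, σ x i ≠ 0 := by
    intro x i
    simp only [σ]
    split_ifs <;> norm_num
  let Ψ : E n × (Fin m → ℕ) → E n := fun p =>
    p.1 + ∑ i, (σ p.1 i * (p.2 i : ℤ)) • v (g i)
  let D : Finset (E n × (Fin m → ℕ)) :=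
    hSf.toFinset ×ˢ Fintype.piFinset (fun _ : Fin m => Finset.range (q + 1))
  have hDcard : D.card = (bal L R ∩ prog a v N).ncard * (q + 1) ^ m := by
    rw [Finset.card_product, Fintype.card_piFinset, Set.ncard_eq_toFinset_card _ hSf]
    simp
  have himg : (D.image Ψ) ⊆ hPf.toFinset := by
    intro z hz
    rw [Finset.mem_image] at hz
    obtain ⟨⟨x, κ⟩, hxκ, rfl⟩ := hz
    rw [Finset.mem_product] at hxκ
    obtain ⟨hx, hκ⟩ := hxκ
    simp only at hx hκ
    rw [Set.Finite.mem_toFinset] at hx ⊢
    obtain ⟨h1, h2⟩ := hk x hx.2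
    have hκ' : ∀ i, κ i ≤ q := by
      intro i
      have := Fintype.mem_piFinset.mp hκ i
      rw [Finset.mem_range] at this
      omega
    let δ : Fin d → ℤ := fun j => ∑ i, if g i = j then σ x i * (κ i : ℤ) else 0
    have hδg : ∀ i, δ (g i) = σ x i * (κ i : ℤ) := by
      intro i
      simp only [δ]
      rw [Finset.sum_eq_single i]
      · rw [if_pos rfl]
      · intro j _ hj
        rw [if_neg (fun h => hj (hg h))]
      · intro h; exact absurd (Finset.mem_univ _) h
    have hδ0 : ∀ j, (∀ i, g i ≠ j) → δ j = 0 := by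
      intro j hj
      simp only [δ]
      exact Finset.sum_eq_zero (fun i _ => if_neg (hj i))
    have hbd : ∀ j, 0 ≤ (k x j : ℤ) + δ j ∧ (k x j : ℤ) + δ j < N j := by
      intro j
      have hkj := h1 j
      by_cases hj : ∃ i, g i = j
      · obtain ⟨i, rfl⟩ := hj
        rw [hδg]
        have h3 := hκ' i
        have h4 := hN i
        simp only [σ]
        split_ifs with h5
        · constructor <;> omega
        · constructor <;> omega
      · push Not at hj
        rw [hδ0 j hj]
        constructor <;> omega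
    refine ⟨fun j => ((k x j : ℤ) + δ j).toNat, fun j => ?_, ?_⟩
    · have := hbd j
      change ((k x j : ℤ) + δ j).toNat < N j
      omega
    · have hnat : ∀ j, ((k x j : ℤ) + δ j).toNat • v j = (k x j) • v j + δ j • v j := by
        intro j
        rw [← natCast_zsmul, Int.toNat_of_nonneg (hbd j).1, add_smul, natCast_zsmul]
      have hsum : ∑ j, δ j • v j = ∑ i, (σ x i * (κ i : ℤ)) • v (g i) := by
        simp only [δ, Finset.sum_smul]
        rw [Finset.sum_comm]
        refine Finset.sum_congr rfl fun i _ => ?_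
        rw [Finset.sum_eq_single (g i)]
        · rw [if_pos rfl]
        · intro j _ hj
          rw [if_neg (fun h => hj h.symm), zero_smul]
        · intro h; exact absurd (Finset.mem_univ _) h
      simp only [Ψ, hnat, Finset.sum_add_distrib, hsum]
      rw [← add_assoc, ← h2]
  have hmain : D.card ≤ cnt (sec L V) (4 * R) * (D.image Ψ).card := by
    refine Finset.card_le_mul_card_image D _ ?_
    intro z hz
    obtain ⟨⟨x0, κ0⟩, hx0, hz0⟩ := Finset.mem_image.mp hz
    rw [cnt, Set.ncard_eq_toFinset_card _ (fin_sec hL V (4 * R))]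
    have hx0' : x0 ∈ bal L R := by
      rw [Finset.mem_product] at hx0
      exact ((Set.Finite.mem_toFinset _).mp hx0.1).1
    have hspan : ∀ (x : E n) (κ : Fin m → ℕ), ∑ i, (σ x i * (κ i : ℤ)) • v (g i) ∈ V := by
      intro x κ
      refine Submodule.sum_mem _ fun i _ => ?_
      rw [zsmul_eq]
      refine Submodule.smul_mem _ _ ?_
      rw [hV]
      exact Submodule.subset_span ⟨i, rfl⟩
    refine Finset.card_le_card_of_injOn (fun p => p.1 - x0) ?_ ?_
    · rintro ⟨x, κ⟩ hp
      rw [Finset.mem_coe, Finset.mem_filter, Finset.mem_product] at hp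
      obtain ⟨⟨hx, hκ⟩, hΨ⟩ := hp
      simp only at hx hκ hΨ
      rw [Finset.mem_coe, Set.Finite.mem_toFinset]
      rw [Set.Finite.mem_toFinset] at hx
      refine sub_mem_bal hR hx.1 hx0' ?_
      have h3 : x - x0 = (∑ i, (σ x0 i * (κ0 i : ℤ)) • v (g i))
          - ∑ i, (σ x i * (κ i : ℤ)) • v (g i) := by
        have h4 : Ψ (x, κ) = Ψ (x0, κ0) := by rw [hΨ, hz0]
        simp only [Ψ] at h4
        rw [sub_eq_sub_iff_add_eq_add, h4, add_comm]
      rw [h3]
      exact V.sub_mem (hspan _ _) (hspan _ _)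
    · rintro ⟨x, κ⟩ hp ⟨x', κ'⟩ hp' hxx
      rw [Finset.mem_coe, Finset.mem_filter] at hp hp'
      simp only at hxx
      have hx : x = x' := sub_left_injective hxx
      subst hx
      have h4 : Ψ (x, κ) = Ψ (x, κ') := by rw [hp.2, hp'.2]
      simp only [Ψ] at h4
      have h5 := add_left_cancel h4
      have h6 : ∑ i, ((σ x i : ℝ) * ((κ i : ℝ) - (κ' i : ℝ))) • v (g i) = 0 := by
        rw [← sub_eq_zero, ← Finset.sum_sub_distrib] at h5
        rw [← h5]
        refine Finset.sum_congr rfl fun i _ => ?_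
        rw [zsmul_eq, zsmul_eq, ← sub_smul]
        push_cast
        ring_nf
      have h7 := (Fintype.linearIndependent_iff.mp hli) _ h6
      refine Prod.ext rfl ?_
      funext i
      have h8 := h7 i
      rcases mul_eq_zero.mp h8 with h9 | h9
      · exact absurd (by exact_mod_cast h9) (hσ x i)
      · have : (κ i : ℝ) = κ' i := sub_eq_zero.mp h9
        exact_mod_cast this
  rw [← hDcard]
  refine hmain.trans (Nat.mul_le_mul_left _ ?_)
  rw [Set.ncard_eq_toFinset_card _ hPf]
  exact Finset.card_le_card himg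

/-- part (b): the long directions span a small space -/
lemma short_directions {n d q : ℕ} {L : AddSubgroup (E n)} {R : ℝ} (hL : FinBalls L)
    (hR : 0 < R) (hq : 1 ≤ q) (a : E n) (v : Fin d → E n) (N : Fin d → ℕ) :
    (bal L R ∩ prog a v N).ncard ≤
      cnt (sec L (Submodule.span ℝ (v '' {i | 2 * q ≤ N i}))) (4 * R) * (2 * q) ^ d := by
  classical
  obtain ⟨V, hV⟩ : ∃ V, V = Submodule.span ℝ (v '' {i | 2 * q ≤ N i}) := ⟨_, rfl⟩
  rw [← hV]
  have hPf := prog_finite a v N
  have hSf : (bal L R ∩ prog a v N).Finite := hPf.subset Set.inter_subset_right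
  have hk : ∀ x : E n, ∃ k : Fin d → ℕ, x ∈ prog a v N → (∀ i, k i < N i) ∧
      x = a + ∑ i, k i • v i := by
    intro x
    by_cases hx : x ∈ prog a v N
    · obtain ⟨k, hk, hk'⟩ := hx
      exact ⟨k, fun _ => ⟨hk, hk'⟩⟩
    · exact ⟨0, fun h => absurd h hx⟩
  choose k hk using hk
  let ψ : E n → (Fin d → ℕ) := fun x i => if 2 * q ≤ N i then 0 else k x i
  have hmain : hSf.toFinset.card ≤ cnt (sec L V) (4 * R) * (hSf.toFinset.image ψ).card := by
    refine Finset.card_le_mul_card_image _ _ ?_
    intro z hz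
    obtain ⟨x0, hx0, hz0⟩ := Finset.mem_image.mp hz
    rw [Set.Finite.mem_toFinset] at hx0
    rw [cnt, Set.ncard_eq_toFinset_card _ (fin_sec hL V (4 * R))]
    refine Finset.card_le_card_of_injOn (fun p => p - x0) ?_ ?_
    · intro x hx
      rw [Finset.mem_coe, Finset.mem_filter, Set.Finite.mem_toFinset] at hx
      rw [Finset.mem_coe, Set.Finite.mem_toFinset]
      refine sub_mem_bal hR hx.1.1 hx0.1 ?_
      have e1 := (hk x hx.1.2).2
      have e2 := (hk x0 hx0.2).2
      have h3 : x - x0 = ∑ i, ((k x i : ℝ) - (k x0 i : ℝ)) • v i := by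
        have e3 : x - x0 = (∑ i, k x i • v i) - ∑ i, k x0 i • v i := by
          nth_rewrite 1 [e1]
          nth_rewrite 1 [e2]
          abel
        rw [e3, ← Finset.sum_sub_distrib]
        refine Finset.sum_congr rfl fun i _ => ?_
        rw [sub_smul, Nat.cast_smul_eq_nsmul, Nat.cast_smul_eq_nsmul]
      rw [h3]
      refine V.sum_mem fun i _ => ?_
      by_cases hi : 2 * q ≤ N i
      · refine V.smul_mem _ ?_
        rw [hV]
        exact Submodule.subset_span ⟨i, hi, rfl⟩
      · have h4 : ψ x i = ψ x0 i := by rw [hx.2, hz0]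
        simp only [ψ, if_neg hi] at h4
        rw [h4, sub_self, zero_smul]
        exact V.zero_mem
    · intro x _ x' _ hxx
      exact sub_left_injective hxx
  have himg : (hSf.toFinset.image ψ) ⊆ Fintype.piFinset (fun _ : Fin d => Finset.range (2 * q)) := by
    intro z hz
    obtain ⟨x, hx, rfl⟩ := Finset.mem_image.mp hz
    rw [Set.Finite.mem_toFinset] at hx
    rw [Fintype.mem_piFinset]
    intro i
    rw [Finset.mem_range]
    simp only [ψ]
    have := (hk x hx.2).1 i
    split_ifs <;> omega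
  have h5 := Finset.card_le_card himg
  rw [Fintype.card_piFinset] at h5
  simp only [Finset.card_range, Finset.prod_const, Finset.card_univ, Fintype.card_fin] at h5
  rw [Set.ncard_eq_toFinset_card _ hSf]
  exact hmain.trans (Nat.mul_le_mul_left _ h5)

end ModH3

open ModH3 in
theorem stmtH3 : StmtH3 := by
  intro C κ hC hκ
  obtain ⟨q, hq1, hq⟩ : ∃ q : ℕ, 1 ≤ q ∧ Real.exp (2 * (2 * C + 1) / κ + (C + 1)) ≤ q := by
    refine ⟨⌈Real.exp (2 * (2 * C + 1) / κ + (C + 1))⌉₊, ?_, Nat.le_ceil _⟩
    exact Nat.one_le_iff_ne_zero.mpr (Nat.ceil_pos.mpr (Real.exp_pos _)).ne'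
  have hq0 : (0 : ℝ) < q := by exact_mod_cast hq1
  have hpos : 0 < 2 * (2 * C + 1) / κ := by positivity
  have hlogq : 2 * (2 * C + 1) / κ + (C + 1) ≤ Real.log q := by
    rw [Real.le_log_iff_exp_le hq0]; exact hq
  have hlog2q : C + 1 ≤ Real.log (2 * q) := by
    have h1 : Real.log q ≤ Real.log (2 * q) := Real.log_le_log hq0 (by linarith)
    linarith
  have hl0 : 0 < Real.log (2 * q) := by linarith
  refine ⟨1 / Real.log (2 * q), ⌈2 / κ⌉₊ + 1, by positivity, ?_⟩
  intro n L R hn hL hR hsec d a v N ha hv hP hS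
  have hn1 : (1 : ℝ) ≤ n := by
    have : 1 ≤ n := le_trans (by omega) hn
    exact_mod_cast this
  have hκn : 2 ≤ κ * n := by
    have h1 : 2 / κ ≤ n := by
      refine (Nat.le_ceil _).trans ?_
      have : ⌈2 / κ⌉₊ ≤ n := by omega
      exact_mod_cast this
    rw [div_le_iff₀ hκ] at h1
    linarith
  obtain ⟨m, hm⟩ : ∃ m : ℕ, m = ⌊κ * n⌋₊ := ⟨_, rfl⟩
  have hm1 : (m : ℝ) ≤ κ * n := by rw [hm]; exact Nat.floor_le (by linarith)
  have hm2 : κ * n / 2 ≤ m := by
    have := Nat.lt_floor_add_one (κ * n)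
    rw [← hm] at this
    linarith
  have hA1 : 1 ≤ cnt L R := by
    rw [cnt, Nat.succ_le_iff, Set.ncard_pos (hL R)]
    exact ⟨0, L.zero_mem, by simpa using hR.le⟩
  have hA : (1 : ℝ) ≤ cnt L R := by exact_mod_cast hA1
  obtain ⟨V, hV⟩ : ∃ V, V = Submodule.span ℝ (v '' {i | 2 * q ≤ N i}) := ⟨_, rfl⟩
  by_cases hdim : m ≤ Module.finrank ℝ V
  · -- many independent long directions
    exfalso
    obtain ⟨ι, f, hfinj, hfspan, hfli⟩ :=
      exists_linearIndependent' ℝ (fun i : {i | 2 * q ≤ N i} => v i)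
    have hspan : Submodule.span ℝ (Set.range ((fun i : {i | 2 * q ≤ N i} => v i) ∘ f)) = V := by
      rw [hfspan, hV, Set.image_eq_range]
    have : Finite ι := Finite.of_injective f hfinj
    have : Fintype ι := Fintype.ofFinite ι
    have hcard : Fintype.card ι = Module.finrank ℝ V := by
      rw [← hspan, finrank_span_eq_card hfli]
    have hcm : Fintype.card (Fin m) ≤ Fintype.card ι := by
      rw [Fintype.card_fin, hcard]; exact hdim
    obtain ⟨e⟩ := Function.Embedding.nonempty_of_card_le hcm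
    have hli : LinearIndependent ℝ (fun i => v ((f (e i)).1)) :=
      hfli.comp e e.injective
    have hbig := long_directions hL hR a v N (fun i => (f (e i)).1)
      (fun i j hij => e.injective (hfinj (Subtype.ext hij))) (fun i => (f (e i)).2) hq1 hli
    have hdimV' : (Module.finrank ℝ (Submodule.span ℝ
        (Set.range fun i => v ((f (e i)).1))) : ℝ) ≤ κ * n := by
      rw [finrank_span_eq_card hli, Fintype.card_fin]
      exact hm1
    have hs := hsec _ hdimV'
    have hbig' : ((bal L R ∩ prog a v N).ncard : ℝ) * (q + 1) ^ m ≤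
        (cnt (sec L (Submodule.span ℝ (Set.range fun i => v ((f (e i)).1)))) (4 * R) : ℝ) *
          (prog a v N).ncard := by exact_mod_cast hbig
    have h1 : Real.exp (-C * n) * cnt L R * (q + 1) ^ m ≤
        Real.exp n * (Real.exp (C * n) * cnt L R) := by
      refine (mul_le_mul_of_nonneg_right hS (by positivity)).trans (hbig'.trans ?_)
      exact mul_le_mul hs hP (by positivity) (by positivity)
    have h2 : ((q : ℝ) + 1) ^ m ≤ Real.exp ((2 * C + 1) * n) := by
      have e1 : Real.exp ((2 * C + 1) * n) = Real.exp n * Real.exp (C * n) * Real.exp (C * n) := by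
        rw [← Real.exp_add, ← Real.exp_add]; ring_nf
      have e2 : Real.exp (-C * n) * Real.exp (C * n) = 1 := by
        rw [← Real.exp_add]; simp
      rw [e1]
      have hA0 : (0 : ℝ) < cnt L R := by linarith
      have h3 : (q + 1 : ℝ) ^ m * (cnt L R * Real.exp (-C * n)) ≤
          Real.exp n * Real.exp (C * n) * cnt L R := by
        calc (q + 1 : ℝ) ^ m * (cnt L R * Real.exp (-C * n))
            = Real.exp (-C * n) * cnt L R * (q + 1) ^ m := by ring
          _ ≤ Real.exp n * (Real.exp (C * n) * cnt L R) := h1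
          _ = _ := by ring
      have h4 := mul_le_mul_of_nonneg_right h3 (Real.exp_pos (C * n)).le
      have h5 : (q + 1 : ℝ) ^ m * (cnt L R * Real.exp (-C * n)) * Real.exp (C * n) =
          (q + 1 : ℝ) ^ m * cnt L R := by
        calc _ = (q + 1 : ℝ) ^ m * cnt L R * (Real.exp (-C * n) * Real.exp (C * n)) := by ring
          _ = _ := by rw [e2, mul_one]
      rw [h5] at h4
      refine le_of_mul_le_mul_right ?_ hA0
      calc _ ≤ _ := h4
        _ = _ := by ring
    have h3 : Real.exp ((2 * C + 1) * n) < ((q : ℝ) + 1) ^ m := by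
      have h4 : Real.exp (Real.log q * m) ≤ ((q : ℝ) + 1) ^ m := by
        rw [Real.exp_mul, Real.exp_log hq0, Real.rpow_natCast]
        exact pow_le_pow_left₀ hq0.le (by linarith) m
      refine lt_of_lt_of_le ?_ h4
      apply Real.exp_lt_exp.mpr
      have h5 : (2 * (2 * C + 1) / κ + (C + 1)) * (κ * n / 2) ≤ Real.log q * m :=
        mul_le_mul hlogq hm2 (by positivity) (by linarith)
      have h6 : (2 * (2 * C + 1) / κ + (C + 1)) * (κ * n / 2) =
          (2 * C + 1) * n + (C + 1) * (κ * n) / 2 := by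
        field_simp
      rw [h6] at h5
      have h7 : 0 < (C + 1) * (κ * n) / 2 := by
        have : 0 < C + 1 := by linarith
        positivity
      linarith
    linarith
  · -- few long directions
    push Not at hdim
    have hdimV : (Module.finrank ℝ V : ℝ) ≤ κ * n := by
      refine le_trans ?_ hm1
      exact_mod_cast hdim.le
    have hs := hsec V hdimV
    have hsmall := short_directions hL hR hq1 a v N
    rw [← hV] at hsmall
    have hsmall' : ((bal L R ∩ prog a v N).ncard : ℝ) ≤
        (cnt (sec L V) (4 * R) : ℝ) * (2 * q) ^ d := by exact_mod_cast hsmall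
    have h1 : Real.exp (-C * n) * cnt L R ≤ Real.exp n * (2 * q) ^ d :=
      hS.trans (hsmall'.trans (mul_le_mul_of_nonneg_right hs (by positivity)))
    have h2 := Real.log_le_log (by positivity) h1
    rw [Real.log_mul (Real.exp_pos _).ne' (by linarith), Real.log_exp,
      Real.log_mul (Real.exp_pos _).ne' (by positivity), Real.log_exp, Real.log_pow] at h2
    rw [one_div, ← div_eq_inv_mul, sub_le_iff_le_add, div_le_iff₀ hl0]
    have h3 : (C + 1) * n ≤ n * Real.log (2 * q) := by
      rw [mul_comm]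
      exact mul_le_mul_of_nonneg_left hlog2q (by linarith)
    nlinarith
end Pool.Agent.T6.H7.PF
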