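import Pool.Agent.T6.H7.PF.Defs

set_option autoImplicit false

namespace Pool.Agent.T6.H7.PF

open scoped BigOperators

variable {n : ℕ}

lemma zero_mem_bal (M : AddSubgroup (E n)) {r : ℝ} (hr : 0 ≤ r) : (0 : E n) ∈ bal M r :=
  ⟨M.zero_mem, by simpa using hr⟩

lemma cnt_pos {M : AddSubgroup (E n)} (hf : FinBalls M) {r : ℝ} (hr : 0 ≤ r) : 1 ≤ cnt M r := by
  unfold cnt
  rw [Nat.one_le_iff_ne_zero]
  intro h
  rw [Set.ncard_eq_zero (hf r)] at h
  have := zero_mem_bal M hr
  rw [h] at this
  exact this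

lemma cnt_mono {M : AddSubgroup (E n)} (hf : FinBalls M) {r s : ℝ} (h : r ≤ s) :
    cnt M r ≤ cnt M s :=
  Set.ncard_le_ncard (fun _ hx => ⟨hx.1, hx.2.trans h⟩) (hf s)

lemma FinBalls.sec {L : AddSubgroup (E n)} (hf : FinBalls L) (V : Submodule ℝ (E n)) :
    FinBalls (sec L V) := fun r => (hf r).subset fun _ hx => ⟨hx.1.1, hx.2⟩

lemma mem_sec {L : AddSubgroup (E n)} {V : Submodule ℝ (E n)} {x : E n} :
    x ∈ sec L V ↔ x ∈ L ∧ x ∈ V := Iff.rfl

/-- Pigeonhole on the scales. -/
lemma scale {M : AddSubgroup (E n)} (hf : FinBalls M) {R X : ℝ} (hR : 0 < R) (hX : 1 ≤ X)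
    {J : ℕ} (hJ : 1 ≤ J) (h : (cnt M (2 ^ J * R) : ℝ) ≤ X ^ J) :
    ∃ j < J, (cnt M (2 * (2 ^ j * R)) : ℝ) ≤ X * cnt M (2 ^ j * R) := by
  by_contra hc
  push Not at hc
  have key : ∀ j ≤ J, X ^ j ≤ (cnt M (2 ^ j * R) : ℝ) := by
    intro j
    induction j with
    | zero =>
      intro _
      have := cnt_pos hf (r := 2 ^ 0 * R) (by positivity)
      simpa using this
    | succ j ih =>
      intro hj
      have h1 := ih (by omega)
      have h2 := hc j (by omega)
      have e : (2 : ℝ) * (2 ^ j * R) = 2 ^ (j + 1) * R := by ring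
      rw [e] at h2
      calc X ^ (j + 1) = X * X ^ j := by ring
        _ ≤ X * cnt M (2 ^ j * R) := mul_le_mul_of_nonneg_left h1 (by linarith)
        _ ≤ _ := h2.le
  obtain ⟨j, rfl⟩ : ∃ j, J = j + 1 := ⟨J - 1, by omega⟩
  have h1 := key j (by omega)
  have h2 := hc j (by omega)
  have e : (2 : ℝ) * (2 ^ j * R) = 2 ^ (j + 1) * R := by ring
  rw [e] at h2
  have h3 : X ^ (j + 1) ≤ X * cnt M (2 ^ j * R) := by
    rw [pow_succ']
    exact mul_le_mul_of_nonneg_left h1 (by linarith)
  linarith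

/-- Points of a section modulo a smaller section. -/
lemma cosets {L : AddSubgroup (E n)} (hf : FinBalls L) (V V' : Submodule ℝ (E n)) (hV : V' ≤ V)
    {R r : ℝ} (hr : R ≤ r) :
    (cnt (sec L V) R : ℝ) * cnt (sec L V') r ≤
      cnt (sec L V) (2 * r) * cnt (sec L V') (2 * R) := by
  classical
  set Y := (hf.sec V R).toFinset with hY
  set q : E n → E n ⧸ V' := fun x => V'.mkQ x with hq
  set C := Y.image q with hC
  have hYcard : Y.card = cnt (sec L V) R := by
    rw [hY]; exact (Set.ncard_eq_toFinset_card _ _).symm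
  have hmemY : ∀ y, y ∈ Y ↔ y ∈ bal (sec L V) R := by
    intro y; rw [hY, Set.Finite.mem_toFinset]
  -- upper bound
  have h1 : Y.card ≤ cnt (sec L V') (2 * R) * C.card := by
    refine Finset.card_le_mul_card_image Y _ ?_
    intro c hc
    rw [Finset.mem_image] at hc
    obtain ⟨y₁, hy₁, rfl⟩ := hc
    have hy₁' := (hmemY _).1 hy₁
    unfold cnt
    rw [← Set.ncard_coe_finset]
    refine Set.ncard_le_ncard_of_injOn (fun x => x - y₁) ?_ ?_ ((hf.sec V') _)
    · intro x hx
      rw [Finset.mem_coe, Finset.mem_filter] at hx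
      have hx1 := (hmemY _).1 hx.1
      refine ⟨⟨?_, ?_⟩, ?_⟩
      · exact L.sub_mem hx1.1.1 hy₁'.1.1
      · have := hx.2
        rw [hq] at this
        simp only [Submodule.mkQ_apply] at this
        exact (Submodule.Quotient.eq V').1 this
      · calc ‖x - y₁‖ ≤ ‖x‖ + ‖y₁‖ := norm_sub_le _ _
          _ ≤ 2 * R := by have := hx1.2; have := hy₁'.2; linarith
    · intro x _ y _ hxy
      exact sub_left_injective hxy
  -- representatives
  have hrep : ∀ c ∈ C, ∃ y ∈ Y, q y = c := by
    intro c hc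
    rw [hC, Finset.mem_image] at hc
    exact hc
  choose! rep hrepY hrepq using hrep
  set Z := (hf.sec V' r).toFinset with hZ
  have hmemZ : ∀ z, z ∈ Z ↔ z ∈ bal (sec L V') r := by
    intro y; rw [hZ, Set.Finite.mem_toFinset]
  have hZcard : Z.card = cnt (sec L V') r := by
    rw [hZ]; exact (Set.ncard_eq_toFinset_card _ _).symm
  have h2 : C.card * Z.card ≤ cnt (sec L V) (2 * r) := by
    rw [← Finset.card_product, cnt, ← Set.ncard_coe_finset]
    refine Set.ncard_le_ncard_of_injOn (fun p => rep p.1 + p.2) ?_ ?_ ((hf.sec V) _)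
    · intro p hp
      rw [Finset.mem_coe, Finset.mem_product] at hp
      have h3 := (hmemY _).1 (hrepY _ hp.1)
      have h4 := (hmemZ _).1 hp.2
      refine ⟨⟨L.add_mem h3.1.1 h4.1.1, V.add_mem h3.1.2 (hV h4.1.2)⟩, ?_⟩
      calc ‖rep p.1 + p.2‖ ≤ ‖rep p.1‖ + ‖p.2‖ := norm_add_le _ _
        _ ≤ 2 * r := by have := h3.2; have := h4.2; linarith
    · intro p hp p' hp' heq
      rw [Finset.mem_coe, Finset.mem_product] at hp hp'
      have heq' : rep p.1 + p.2 = rep p'.1 + p'.2 := heq
      have h4 := ((hmemZ _).1 hp.2).1.2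
      have h4' := ((hmemZ _).1 hp'.2).1.2
      have h5 : q (rep p.1) = q (rep p'.1) := by
        rw [hq]
        simp only [Submodule.mkQ_apply]
        rw [Submodule.Quotient.eq]
        have : rep p.1 - rep p'.1 = p'.2 - p.2 := by
          rw [sub_eq_sub_iff_add_eq_add, heq', add_comm]
        rw [this]
        exact V'.sub_mem h4' h4
      rw [hrepq _ hp.1, hrepq _ hp'.1] at h5
      rw [h5] at heq'
      exact Prod.ext h5 (add_left_cancel heq')
  have h1' : (cnt (sec L V) R : ℝ) ≤ cnt (sec L V') (2 * R) * C.card := by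
    rw [← hYcard]; exact_mod_cast h1
  have h2' : (C.card : ℝ) * cnt (sec L V') r ≤ cnt (sec L V) (2 * r) := by
    rw [← hZcard]; exact_mod_cast h2
  calc (cnt (sec L V) R : ℝ) * cnt (sec L V') r
      ≤ (cnt (sec L V') (2 * R) * C.card) * cnt (sec L V') r :=
        mul_le_mul_of_nonneg_right h1' (Nat.cast_nonneg _)
    _ = cnt (sec L V') (2 * R) * (C.card * cnt (sec L V') r) := by ring
    _ ≤ cnt (sec L V') (2 * R) * cnt (sec L V) (2 * r) :=
        mul_le_mul_of_nonneg_left h2' (Nat.cast_nonneg _)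
    _ = _ := by ring

/-- Descent to a section of smaller dimension. -/
lemma descent (hP2 : StmtP2) (hW : StmtW2) {L : AddSubgroup (E n)} (hf : FinBalls L)
    (V : Submodule ℝ (E n)) {R r X : ℝ} (hR : 0 < R) (hr : R ≤ r) (hX : 1 ≤ X)
    (h : (cnt (sec L V) (2 * r) : ℝ) ≤ X * cnt (sec L V) r) :
    ∃ V' : Submodule ℝ (E n), V' ≤ V ∧ (Module.finrank ℝ V' : ℝ) ≤ 480 * Real.log X + 1 ∧
      (cnt (sec L V) R : ℝ) ≤ X ^ 186 * 25 ^ Module.finrank ℝ V' * cnt (sec L V') R := by
  obtain ⟨V'', hd, hc⟩ := hW n (sec L V) r X (hf.sec V) (by linarith) hX h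
  have hs : sec (sec L V) V'' = sec L (V ⊓ V'') := by
    ext x
    constructor
    · intro hx; exact ⟨hx.1.1, hx.1.2, hx.2⟩
    · intro hx; exact ⟨⟨hx.1, hx.2.1⟩, hx.2.2⟩
  rw [hs] at hc
  set V' := V ⊓ V'' with hV'
  have hle : V' ≤ V := inf_le_left
  have hfr : Module.finrank ℝ V' ≤ Module.finrank ℝ V'' :=
    Submodule.finrank_mono (inf_le_right : V ⊓ V'' ≤ V'')
  refine ⟨V', hle, ?_, ?_⟩
  · exact (by exact_mod_cast hfr : (Module.finrank ℝ V' : ℝ) ≤ Module.finrank ℝ V'').trans hd
  · set k' := Module.finrank ℝ V' with hk'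
    have hsub : sec L V' ≤ V'.toAddSubgroup := fun x hx => hx.2
    have p1 := hP2 n (sec L V') V' hsub (hf.sec V') r (by linarith)
    have p2 := hP2 n (sec L V') V' hsub (hf.sec V') R hR
    have hco := cosets hf V V' hle hr
    have hpos : (0 : ℝ) < cnt (sec L V') r := by
      have := cnt_pos (hf.sec V') (r := r) (by linarith)
      exact_mod_cast this
    have e1 : (cnt (sec L V) R : ℝ) * cnt (sec L V') r ≤
        (X ^ 186 * 25 ^ k' * cnt (sec L V') R) * cnt (sec L V') r := by
      have a1 : (cnt (sec L V) (2 * r) : ℝ) ≤ X * (X ^ 185 * (5 ^ k' * cnt (sec L V') r)) := by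
        refine h.trans (mul_le_mul_of_nonneg_left ?_ (by linarith))
        exact hc.trans (mul_le_mul_of_nonneg_left p1 (by positivity))
      calc (cnt (sec L V) R : ℝ) * cnt (sec L V') r
          ≤ cnt (sec L V) (2 * r) * cnt (sec L V') (2 * R) := hco
        _ ≤ (X * (X ^ 185 * (5 ^ k' * cnt (sec L V') r))) * (5 ^ k' * cnt (sec L V') R) :=
            mul_le_mul a1 p2 (Nat.cast_nonneg _) (by positivity)
        _ = (X ^ 186 * (5 ^ k' * 5 ^ k') * cnt (sec L V') R) * cnt (sec L V') r := by ring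
        _ = _ := by
            rw [← mul_pow]; norm_num
    exact le_of_mul_le_mul_right e1 hpos

/-- The induction. `R` is the radius, `T = R / u`. -/
lemma sections (hP1 : StmtP1) (hP2 : StmtP2) (hW : StmtW2) {L : AddSubgroup (E n)}
    (hf : FinBalls L) {u T κ : ℝ} (hu : 0 < u) (hT : 1 ≤ T)
    (hsep : ∀ x ∈ L, x ≠ 0 → u ≤ ‖x‖)
    (htop : ∀ V : Submodule ℝ (E n), (Module.finrank ℝ V : ℝ) ≤ κ * n →
      (n : ℝ) / 2 < Module.finrank ℝ V * Real.log (1 + 2 * T) →
      Submodule.span ℝ (bal (sec L V) (T * u)) = V →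
      ∃ J : ℕ, 1 ≤ J ∧
        (cnt (sec L V) (2 ^ J * (T * u)) : ℝ) ≤
          Real.exp ((Module.finrank ℝ V : ℝ) / 2000) ^ J) :
    ∀ (k : ℕ) (V : Submodule ℝ (E n)), Module.finrank ℝ V = k → (k : ℝ) ≤ κ * n →
      (8 * Real.log (1 + 2 * T) ≤ n) →
      (cnt (sec L V) (T * u) : ℝ) ≤ Real.exp (10 * k + n / 2) := by
  intro k
  induction k using Nat.strong_induction_on with
  | _ k ih =>
    intro V hV hk hbig
    have hTu : 0 < T * u := by positivity
    have hlog : 0 < Real.log (1 + 2 * T) := Real.log_pos (by linarith)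
    by_cases hsmall : (k : ℝ) * Real.log (1 + 2 * T) ≤ n / 2
    · have h1 := (hP1 n (sec L V) V u (fun x hx => hx.2) hu
        (fun x hx h0 => hsep x hx.1 h0)).2 (T * u) hTu.le
      have e : 1 + 2 * (T * u) / u = 1 + 2 * T := by field_simp
      rw [e, hV] at h1
      refine h1.trans ?_
      rw [← Real.exp_log (show (0 : ℝ) < 1 + 2 * T by linarith), ← Real.exp_nat_mul]
      refine Real.exp_le_exp.2 ?_
      have : (0 : ℝ) ≤ k := Nat.cast_nonneg _
      linarith
    · rw [not_le] at hsmall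
      set V₀ := Submodule.span ℝ (bal (sec L V) (T * u)) with hV₀
      have hle : V₀ ≤ V := Submodule.span_le.2 fun x hx => hx.1.2
      by_cases heq : V₀ = V
      · obtain ⟨J, hJ, hc⟩ := htop V (by rw [hV]; exact hk) (by rw [hV]; exact hsmall)
          (by rw [← hV₀]; exact heq)
        rw [hV] at hc
        set X := Real.exp ((k : ℝ) / 2000) with hX
        have hX1 : 1 ≤ X := Real.one_le_exp (by positivity)
        obtain ⟨j, hj, hdbl⟩ := scale (hf.sec V) hTu hX1 hJ hc
        have hr : T * u ≤ 2 ^ j * (T * u) := by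
          have : (1 : ℝ) ≤ 2 ^ j := one_le_pow₀ (by norm_num)
          nlinarith
        obtain ⟨V', hV'V, hV'd, hV'c⟩ := descent hP2 hW hf V hTu hr hX1 hdbl
        set k' := Module.finrank ℝ V' with hk'
        rw [hX, Real.log_exp] at hV'd
        have hk4 : (4 : ℝ) < k := by
          by_contra hcon
          rw [not_lt] at hcon
          have : (k : ℝ) * Real.log (1 + 2 * T) ≤ 4 * Real.log (1 + 2 * T) :=
            mul_le_mul_of_nonneg_right hcon hlog.le
          linarith
        have hk'2 : (k' : ℝ) ≤ k / 2 := by linarith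
        have hk'lt : k' < k := by
          have : (k' : ℝ) < k := by linarith
          exact_mod_cast this
        have hI := ih k' hk'lt V' rfl (by linarith) hbig
        have h25 : (25 : ℝ) ^ k' ≤ Real.exp (4 * k') := by
          rw [Real.exp_mul, Real.rpow_natCast]
          refine pow_le_pow_left₀ (by norm_num) ?_ k'
          have : (2.7 : ℝ) ≤ Real.exp 1 := by have := Real.exp_one_gt_d9; linarith
          calc (25 : ℝ) ≤ 2.7 ^ 4 := by norm_num
            _ ≤ (Real.exp 1) ^ 4 := pow_le_pow_left₀ (by norm_num) this 4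
            _ = Real.exp 4 := by rw [← Real.exp_nat_mul]; norm_num
        calc (cnt (sec L V) (T * u) : ℝ)
            ≤ X ^ 186 * 25 ^ k' * cnt (sec L V') (T * u) := hV'c
          _ ≤ Real.exp (186 * ((k : ℝ) / 2000)) * Real.exp (4 * k') *
              Real.exp (10 * k' + n / 2) := by
              have hx : X ^ 186 = Real.exp (186 * ((k : ℝ) / 2000)) := by
                rw [hX, ← Real.exp_nat_mul]; norm_num
              rw [hx]
              gcongr
          _ = Real.exp (186 * ((k : ℝ) / 2000) + 4 * k' + (10 * k' + n / 2)) := by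
              rw [← Real.exp_add, ← Real.exp_add]
          _ ≤ Real.exp (10 * k + n / 2) := by
              refine Real.exp_le_exp.2 ?_
              linarith
      · have hlt : V₀ < V := lt_of_le_of_ne hle heq
        have hfr : Module.finrank ℝ V₀ < k := by
          rw [← hV]
          exact Submodule.finrank_lt_finrank_of_lt hlt
        have hbal : bal (sec L V) (T * u) = bal (sec L V₀) (T * u) := by
          ext x
          constructor
          · intro hx
            exact ⟨⟨hx.1.1, Submodule.subset_span hx⟩, hx.2⟩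
          · intro hx
            exact ⟨⟨hx.1.1, hle hx.1.2⟩, hx.2⟩
        have hlt' : (Module.finrank ℝ V₀ : ℝ) ≤ k := by exact_mod_cast hfr.le
        have hI := ih _ hfr V₀ rfl (by linarith) hbig
        have e : cnt (sec L V) (T * u) = cnt (sec L V₀) (T * u) := by
          unfold cnt; rw [hbal]
        rw [e]
        refine hI.trans (Real.exp_le_exp.2 ?_)
        linarith

end Pool.Agent.T6.H7.PF
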